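import Mathlib

/-! An element of `ℓ`-power order without fixed points. -/

set_option autoImplicit false

namespace Pool.Agent.V11235.SE

open Polynomial

theorem exists_coatom {P : Type*} [Group P] [Finite P] (ℓ : ℕ) [Fact ℓ.Prime] (hP : IsPGroup ℓ P)
    (H : Subgroup P) (hH : H ≠ ⊤) :
    ∃ M : Subgroup P, M.Normal ∧ H ≤ M ∧ ℓ * Nat.card M ≤ Nat.card P := by
  obtain ⟨M, hM, hHM⟩ := (eq_top_or_exists_le_coatom H).resolve_left hH
  have hnil : Group.IsNilpotent P := hP.isNilpotent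
  have hn : M.Normal :=
    Subgroup.NormalizerCondition.normal_of_coatom M Group.normalizerCondition_of_isNilpotent hM
  refine ⟨M, hn, hHM, ?_⟩
  obtain ⟨n, hn⟩ := hP.exists_card_eq
  have h1 : M.index ∣ ℓ ^ n := by
    rw [← hn]
    exact M.index_dvd_card
  obtain ⟨k, -, hk⟩ := (Nat.dvd_prime_pow Fact.out).1 h1
  have hk0 : k ≠ 0 := by
    rintro rfl
    rw [pow_zero, Subgroup.index_eq_one] at hk
    exact hM.1 hk
  rw [← M.index_mul_card, hk]
  refine Nat.mul_le_mul_right _ ?_
  exact Nat.le_self_pow hk0 ℓ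

theorem exists_der {G Ω : Type*} [Group G] [Finite G] [MulAction G Ω] [Finite Ω]
    [MulAction.IsPretransitive G Ω] (ℓ : ℕ) [hℓ : Fact ℓ.Prime] (r s : ℕ) (hr : 0 < r)
    (hs : s < ℓ) (hcard : Nat.card Ω = ℓ ^ r * s) :
    ∃ g : G, (∃ k : ℕ, g ^ ℓ ^ k = 1) ∧ ∀ x : Ω, g • x ≠ x := by
  classical
  have hfΩ : Fintype Ω := Fintype.ofFinite Ω
  obtain ⟨P⟩ : Nonempty (Sylow ℓ G) := inferInstance
  -- the orbits of `P` have at least `ℓ ^ r` elements
  have horb : ∀ x : Ω, ℓ ^ r ∣ (MulAction.orbit P x).ncard := by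
    intro x
    have h0 : (MulAction.stabilizer P x).index = (MulAction.stabilizer G x).relIndex P := by
      rw [Subgroup.relIndex]
      congr 1
    rw [← MulAction.index_stabilizer, h0]
    have h1 : (MulAction.stabilizer G x).index = ℓ ^ r * s := by
      rw [MulAction.index_stabilizer_of_transitive, hcard]
    have h2 : ((MulAction.stabilizer G x) ⊓ (P : Subgroup G)).relIndex P * (P : Subgroup G).index =
        ((MulAction.stabilizer G x) ⊓ (P : Subgroup G)).index :=
      Subgroup.relIndex_mul_index inf_le_right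
    have h3 : (MulAction.stabilizer G x).index ∣
        ((MulAction.stabilizer G x) ⊓ (P : Subgroup G)).index :=
      Subgroup.index_dvd_of_le inf_le_left
    rw [← h2, h1, Subgroup.inf_relIndex_right] at h3
    have h4 : Nat.Coprime (ℓ ^ r) (P : Subgroup G).index :=
      Nat.Coprime.pow_left _ ((Nat.Prime.coprime_iff_not_dvd hℓ.out).2 P.not_dvd_index)
    exact h4.dvd_of_dvd_mul_right ((Dvd.intro _ rfl).trans h3)
  -- the number of orbits is at most `s`
  have hnum : Nat.card (MulAction.orbitRel.Quotient P Ω) ≤ s := by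
    have h1 : ∑ ω : MulAction.orbitRel.Quotient P Ω, (MulAction.orbitRel.Quotient.orbit ω).ncard =
        Nat.card Ω := by
      rw [Nat.card_congr (MulAction.selfEquivSigmaOrbits' P Ω), Nat.card_sigma]
      rfl
    have h2 : ∀ ω : MulAction.orbitRel.Quotient P Ω,
        ℓ ^ r ≤ (MulAction.orbitRel.Quotient.orbit ω).ncard := by
      intro ω
      induction ω using Quotient.inductionOn' with
      | h x =>
        have h3 : MulAction.orbitRel.Quotient.orbit (Quotient.mk'' x :
            MulAction.orbitRel.Quotient P Ω) = MulAction.orbit P x := rfl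
        rw [h3]
        refine Nat.le_of_dvd ?_ (horb x)
        rw [Set.ncard_pos (Set.toFinite _)]
        exact MulAction.nonempty_orbit x
    have h3 : ∑ _ω : MulAction.orbitRel.Quotient P Ω, ℓ ^ r ≤ Nat.card Ω := by
      rw [← h1]
      exact Finset.sum_le_sum fun ω _ => h2 ω
    rw [Finset.sum_const, Finset.card_univ, smul_eq_mul, hcard, mul_comm,
      ← Nat.card_eq_fintype_card] at h3
    exact Nat.le_of_mul_le_mul_left h3 (pow_pos hℓ.out.pos r)
  -- the maximal subgroups
  have hMx : ∀ ω : MulAction.orbitRel.Quotient P Ω, ∃ M : Subgroup P, M.Normal ∧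
      MulAction.stabilizer P (Quotient.out ω) ≤ M ∧ ℓ * Nat.card M ≤ Nat.card P := by
    intro ω
    refine exists_coatom ℓ P.isPGroup' _ ?_
    intro h0
    have h1 := horb (Quotient.out ω)
    rw [← MulAction.index_stabilizer, h0, Subgroup.index_top, Nat.dvd_one] at h1
    have h2 := Nat.one_lt_pow hr.ne' hℓ.out.one_lt
    omega
  choose M hMn hMs hMc using hMx
  -- an element outside of these subgroups
  obtain ⟨g, hg⟩ : ∃ g : P, ∀ ω, g ∉ M ω := by
    by_contra hcon
    push Not at hcon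
    have h1 : (Set.univ : Set P) ⊆ ⋃ ω, (M ω : Set P) := fun g _ => Set.mem_iUnion.2 (hcon g)
    have h2 : Nat.card P ≤ ∑ ω, Nat.card (M ω) := by
      rw [← Set.ncard_univ]
      refine (Set.ncard_le_ncard h1 (Set.toFinite _)).trans ?_
      exact (Set.ncard_iUnion_le_of_fintype _)
    have h3 : ℓ * Nat.card P ≤ s * Nat.card P := by
      calc ℓ * Nat.card P ≤ ℓ * ∑ ω, Nat.card (M ω) := Nat.mul_le_mul_left _ h2
        _ = ∑ ω, ℓ * Nat.card (M ω) := Finset.mul_sum _ _ _
        _ ≤ ∑ _ω : MulAction.orbitRel.Quotient P Ω, Nat.card P :=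
          Finset.sum_le_sum fun ω _ => hMc ω
        _ = Nat.card (MulAction.orbitRel.Quotient P Ω) * Nat.card P := by
          rw [Finset.sum_const, Finset.card_univ, smul_eq_mul,
            Nat.card_eq_fintype_card (α := MulAction.orbitRel.Quotient P Ω)]
        _ ≤ s * Nat.card P := Nat.mul_le_mul_right _ hnum
    have h4 := Nat.le_of_mul_le_mul_right h3 (Nat.card_pos (α := P))
    omega
  refine ⟨g, ?_, ?_⟩
  · obtain ⟨k, hk⟩ := P.isPGroup' g
    refine ⟨k, ?_⟩
    rw [← Subgroup.coe_pow, hk, Subgroup.coe_one]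
  · intro x hx
    set ω : MulAction.orbitRel.Quotient P Ω := Quotient.mk'' x with hω
    have h1 : MulAction.orbitRel P Ω x (Quotient.out ω) := by
      have := Quotient.exact' (Quotient.out_eq' ω)
      exact (MulAction.orbitRel P Ω).symm this
    obtain ⟨h, hh⟩ := h1
    have hh' : h • Quotient.out ω = x := hh
    have h2 : h⁻¹ * g * h ∈ MulAction.stabilizer P (Quotient.out ω) := by
      rw [MulAction.mem_stabilizer_iff, mul_smul, mul_smul, hh']
      have h3 : g • x = x := hx
      rw [h3, ← hh', inv_smul_smul]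
    have h4 := (hMn ω).conj_mem _ (hMs ω h2) h
    apply hg ω
    have h5 : h * (h⁻¹ * g * h) * h⁻¹ = g := by group
    rwa [h5] at h4

theorem ell_derangement {K : Type} [Field K] [CharZero K] (ℓ : ℕ) (hℓ : ℓ.Prime) (f : K[X])
    (hf : Irreducible f) (r s : ℕ) (hr : 0 < r) (hs : s < ℓ) (hdeg : f.natDegree = ℓ ^ r * s) :
    ∃ σ : AlgebraicClosure K ≃ₐ[K] AlgebraicClosure K, ∀ n : ℕ, ¬ ℓ ∣ n →
      ∀ x : AlgebraicClosure K, aeval x f = 0 → (σ ^ n) x ≠ x := by
  classical
  have hℓ' : Fact ℓ.Prime := ⟨hℓ⟩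
  have hsp : Fact ((f.map (algebraMap K (AlgebraicClosure K))).Splits) := ⟨IsAlgClosed.splits _⟩
  have htr : MulAction.IsPretransitive f.Gal (f.rootSet (AlgebraicClosure K)) :=
    Polynomial.Gal.galAction_isPretransitive f (AlgebraicClosure K) hf
  have hcard : Nat.card (f.rootSet (AlgebraicClosure K)) = ℓ ^ r * s := by
    rw [Nat.card_eq_fintype_card, card_rootSet_eq_natDegree hf.separable hsp.out, hdeg]
  obtain ⟨g, ⟨k, hk⟩, hg⟩ := exists_der (G := f.Gal) ℓ r s hr hs hcard
  obtain ⟨σ, hσ⟩ := Polynomial.Gal.restrict_surjective f (AlgebraicClosure K) g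
  refine ⟨σ, fun n hn x hx hfix => ?_⟩
  have hmem : x ∈ f.rootSet (AlgebraicClosure K) := by
    rw [mem_rootSet]
    exact ⟨hf.ne_zero, hx⟩
  have h1 : g ^ n • (⟨x, hmem⟩ : f.rootSet (AlgebraicClosure K)) = ⟨x, hmem⟩ := by
    apply Subtype.ext
    rw [← hσ, ← map_pow, Polynomial.Gal.restrict_smul]
    exact hfix
  -- `g` is a power of `g ^ n`
  have hcop : Nat.Coprime n (ℓ ^ k) :=
    (Nat.Coprime.pow_left k ((Nat.Prime.coprime_iff_not_dvd hℓ).2 hn)).symm
  have h2 : g ∈ MulAction.stabilizer f.Gal (⟨x, hmem⟩ : f.rootSet (AlgebraicClosure K)) := by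
    have h3 : g ^ n ∈ MulAction.stabilizer f.Gal (⟨x, hmem⟩ : f.rootSet (AlgebraicClosure K)) :=
      MulAction.mem_stabilizer_iff.2 h1
    have h4 : g ^ ((n.gcd (ℓ ^ k) : ℕ) : ℤ) = (g ^ n) ^ n.gcdA (ℓ ^ k) := by
      rw [Nat.gcd_eq_gcd_ab, zpow_add, zpow_mul, zpow_mul, zpow_natCast, zpow_natCast, hk,
        one_zpow, mul_one]
    rw [hcop.gcd_eq_one, Nat.cast_one, zpow_one] at h4
    rw [h4]
    exact Subgroup.zpow_mem _ h3 _
  exact hg _ (MulAction.mem_stabilizer_iff.1 h2)

end Pool.Agent.V11235.SE
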