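import Pool.Agent.V11235.SE.Fine

/-! The fibre of a family at a point close to a ramified fibre. -/

set_option autoImplicit false

namespace Pool.Agent.V11235.SE

open IsDedekindDomain NumberField WithZero Polynomial Pool.Agent.Y157.PS Pool.Agent.Y141.PS

theorem loc_ell (hFUN : S_FUN) (ℓ p : ℕ) (hℓp : ℓ.Prime) (hp : p.Prime) {R' L' k E : Type} [CommRing R'] [Field L'] [Algebra R' L'] [Field k]
    [CharZero k] [Algebra k L'] [Field E] (hinj' : Function.Injective (algebraMap R' L'))
    (V : Valuation E ℤᵐ⁰)
    [Finite (IsLocalRing.ResidueField V.valuationSubring)] (ψ : L' →+* E) (F : k[X][X]) (g : k[X])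
    (F' : R'[X][X]) (g' : R'[X]) (e : ℕ) (θ : R')
    (hF' : F'.map (mapRingHom (algebraMap R' L')) = F.map (mapRingHom (algebraMap k L')))
    (hg' : g.map (algebraMap k L') = (X - C (algebraMap R' L' θ)) ^ e *
      g'.map (algebraMap R' L'))
    (hθ' : V (ψ (algebraMap R' L' (g'.eval θ))) = 1)
    (hint : ∀ r : R', V (ψ (algebraMap R' L' r)) ≤ 1) (gB : V.valuationSubring[X])
    (hgB : gB.map (algebraMap V.valuationSubring E) =
      (F'.map (evalRingHom θ)).map (ψ.comp (algebraMap R' L')))
    (hlc : IsUnit gB.leadingCoeff) (hdeg : gB.natDegree = F.natDegree)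
    (hs : (gB.map (IsLocalRing.residue V.valuationSubring)).Separable)
    (hcard : Nat.card (IsLocalRing.ResidueField V.valuationSubring) = p)
    (hcop : ∀ n : ℕ, ¬ ℓ ∣ n → IsCoprime (X ^ (p ^ n) - X)
      (gB.map (IsLocalRing.residue V.valuationSubring)))
    (h3 : 3 ≤ F.natDegree) (a b : k) (a' b' : R') (ha : algebraMap R' L' a' = algebraMap k L' a)
    (hb : algebraMap R' L' b' = algebraMap k L' b) (hVb : V (ψ (algebraMap R' L' b')) = 1)
    (hab : V (ψ (algebraMap R' L' (a' - θ * b'))) = exp (-1)) :
    (F.map (evalRingHom (a / b))).natDegree = F.natDegree ∧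
      (V (ℓ : E) = 1 → ℓ ∣ F.natDegree → ¬ ℓ ∣ e →
        ∀ (K' : Type) [Field K'] [Algebra k K'] [FiniteDimensional k K'],
          ¬ ℓ ∣ Module.finrank k K' →
          FineP ℓ (algebraMap k K' (g.eval (a / b)))
            ((F.map (evalRingHom (a / b))).map (algebraMap k K'))) := by
  classical
  let ψA : R' →+* V.valuationSubring :=
    { toFun := fun r => ⟨ψ (algebraMap R' L' r), hint r⟩
      map_one' := Subtype.ext (by simp)
      map_mul' := fun y z => Subtype.ext (by simp)
      map_zero' := Subtype.ext (by simp)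
      map_add' := fun y z => Subtype.ext (by simp) }
  have hψA : (algebraMap V.valuationSubring E).comp ψA = ψ.comp (algebraMap R' L') := by
    ext r
    rfl
  have hAinj : Function.Injective (algebraMap V.valuationSubring E) := Subtype.val_injective
  have hunit : ∀ x : V.valuationSubring, IsUnit x ↔ V (x : E) = 1 := by
    intro x
    exact Valuation.Integers.isUnit_iff_valuation_eq_one (Valuation.valuationSubring.integers V)
  have hres0 : ∀ x : V.valuationSubring, IsLocalRing.residue V.valuationSubring x = 0 ↔ V (x : E) < 1 := by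
    intro x
    rw [IsLocalRing.residue_eq_zero_iff, IsLocalRing.mem_maximalIdeal, mem_nonunits_iff, hunit]
    constructor
    · intro h
      exact lt_of_le_of_ne x.2 h
    · intro h
      exact h.ne
  -- the parameter
  set ψk : k →+* E := ψ.comp (algebraMap k L') with hψk
  have hEa : ψk a = ψ (algebraMap R' L' a') := by rw [ha]; rfl
  have hEb : ψk b = ψ (algebraMap R' L' b') := by rw [hb]; rfl
  have hb0 : ψk b ≠ 0 := by
    intro h0
    rw [hEb] at h0
    rw [h0, map_zero] at hVb
    exact zero_ne_one hVb
  have hτV : V (ψk (a / b)) ≤ 1 := by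
    rw [map_div₀, map_div₀, hEa, hEb, hVb, div_one]
    exact hint a'
  let τ : V.valuationSubring := ⟨ψk (a / b), hτV⟩
  have hτE : (algebraMap V.valuationSubring E) τ = ψk (a / b) := rfl
  have hdiff : V ((τ - ψA θ : V.valuationSubring) : E) = exp (-1) := by
    have h1 : ((τ - ψA θ : V.valuationSubring) : E) = ψ (algebraMap R' L' (a' - θ * b')) / ψk b := by
      rw [eq_div_iff hb0]
      change (ψk (a / b) - ψ (algebraMap R' L' θ)) * ψk b = _
      rw [map_div₀, sub_mul, div_mul_cancel₀ _ hb0, hEa, hEb, map_sub, map_sub, map_mul, map_mul]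
    rw [h1, map_div₀, hab, hEb, hVb, div_one]
  have hrτ : IsLocalRing.residue V.valuationSubring τ = IsLocalRing.residue V.valuationSubring (ψA θ) := by
    rw [← sub_eq_zero, ← map_sub, hres0, hdiff, ← exp_zero, exp_lt_exp]
    omega
  -- the polynomial `g`
  obtain ⟨GA, hGA⟩ : ∃ GA : V.valuationSubring[X], GA = g'.map ψA := ⟨_, rfl⟩
  have hGE : GA.map (algebraMap V.valuationSubring E) = (g'.map (algebraMap R' L')).map ψ := by
    rw [hGA, Polynomial.map_map, hψA, Polynomial.map_map]
  have hGτ : ψk (g.eval (a / b)) = ((τ - ψA θ : V.valuationSubring) : E) ^ e *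
      ((GA.eval τ : V.valuationSubring) : E) := by
    have h1 : (algebraMap V.valuationSubring E) (GA.eval τ) =
        (GA.map (algebraMap V.valuationSubring E)).eval
          ((algebraMap V.valuationSubring E) τ) := by
      rw [eval_map_apply]
    have h2 : ψk (g.eval (a / b)) = ((g.map (algebraMap k L')).map ψ).eval (ψk (a / b)) := by
      rw [Polynomial.map_map, ← hψk, eval_map_apply]
    rw [h2, hg', Polynomial.map_mul, Polynomial.map_pow, Polynomial.map_sub, map_X, map_C,
      eval_mul, eval_pow, eval_sub, eval_X, eval_C, ← hGE, ← hτE, ← h1]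
    rfl
  have hGr : V ((GA.eval τ : V.valuationSubring) : E) = 1 := by
    have h1 : IsLocalRing.residue V.valuationSubring (GA.eval τ) =
        IsLocalRing.residue V.valuationSubring (GA.eval (ψA θ)) := by
      rw [← eval_map_apply, ← eval_map_apply, hrτ]
    have h2 : GA.eval (ψA θ) = ψA (g'.eval θ) := by
      rw [hGA, eval_map_apply]
    have h4 : ¬ V ((GA.eval τ : V.valuationSubring) : E) < 1 := by
      rw [← hres0, h1, h2, hres0]
      change ¬ V (ψ (algebraMap R' L' (g'.eval θ))) < 1
      rw [hθ']
      exact lt_irrefl 1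
    exact le_antisymm (GA.eval τ).2 (not_lt.1 h4)
  have hVg : V (ψk (g.eval (a / b))) = exp (-(e : ℤ)) := by
    rw [hGτ, map_mul, map_pow, hdiff, hGr, mul_one, ← exp_nsmul]
    congr 1
    simp
  -- the polynomial `F`
  obtain ⟨FA, hFA⟩ : ∃ FA : V.valuationSubring[X][X], FA = F'.map (mapRingHom ψA) := ⟨_, rfl⟩
  obtain ⟨fA, hfA⟩ : ∃ fA : V.valuationSubring[X], fA = FA.map (evalRingHom τ) := ⟨_, rfl⟩
  have hfE : fA.map (algebraMap V.valuationSubring E) = (F.map (evalRingHom (a / b))).map ψk := by
    have h1 : ((algebraMap V.valuationSubring E).comp (evalRingHom τ)).comp (mapRingHom ψA) =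
        (evalRingHom (ψk (a / b))).comp ((mapRingHom ψ).comp (mapRingHom (algebraMap R' L'))) := by
      apply Polynomial.ringHom_ext
      · intro r
        simp only [RingHom.comp_apply, coe_mapRingHom, map_C, coe_evalRingHom, eval_C]
        rfl
      · simp only [RingHom.comp_apply, coe_mapRingHom, map_X, coe_evalRingHom, eval_X]
        exact hτE
    have h2 : ψk.comp (evalRingHom (a / b)) =
        (evalRingHom (ψk (a / b))).comp ((mapRingHom ψ).comp (mapRingHom (algebraMap k L'))) := by
      apply Polynomial.ringHom_ext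
      · intro r
        simp only [RingHom.comp_apply, coe_mapRingHom, map_C, coe_evalRingHom, eval_C]
        rfl
      · simp only [RingHom.comp_apply, coe_mapRingHom, map_X, coe_evalRingHom, eval_X]
    rw [hfA, hFA, Polynomial.map_map, Polynomial.map_map, h1, ← Polynomial.map_map,
      ← Polynomial.map_map, hF', Polynomial.map_map, Polynomial.map_map, Polynomial.map_map, h2,
      RingHom.comp_assoc]
  have hgBA : gB = FA.map (evalRingHom (ψA θ)) := by
    apply Polynomial.map_injective _ hAinj
    rw [hgB, hFA, Polynomial.map_map, Polynomial.map_map, Polynomial.map_map]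
    congr 1
    apply Polynomial.ringHom_ext
    · intro r
      simp only [RingHom.comp_apply, coe_mapRingHom, map_C, coe_evalRingHom, eval_C]
      rfl
    · simp only [RingHom.comp_apply, coe_mapRingHom, map_X, coe_evalRingHom, eval_X]
      rfl
  have hresf : fA.map (IsLocalRing.residue V.valuationSubring) = gB.map (IsLocalRing.residue V.valuationSubring) := by
    rw [hgBA, hfA, Polynomial.map_map, Polynomial.map_map]
    congr 1
    apply Polynomial.ringHom_ext
    · intro r
      simp
    · simpa using hrτ
  have hdF' : F'.natDegree = F.natDegree := by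
    have h1 : Function.Injective (mapRingHom (algebraMap R' L')) := by
      rw [coe_mapRingHom]
      exact Polynomial.map_injective _ hinj'
    have h2 : Function.Injective (mapRingHom (algebraMap k L')) := by
      rw [coe_mapRingHom]
      exact Polynomial.map_injective _ (algebraMap k L').injective
    rw [← natDegree_map_eq_of_injective h1 F', hF', natDegree_map_eq_of_injective h2]
  have hdle : fA.natDegree ≤ F.natDegree := by
    rw [hfA, hFA, ← hdF']
    exact natDegree_map_le.trans natDegree_map_le
  have hcoefu : IsUnit (fA.coeff F.natDegree) := by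
    by_contra h0
    have h1 : IsLocalRing.residue V.valuationSubring (fA.coeff F.natDegree) = 0 := by
      rw [IsLocalRing.residue_eq_zero_iff, IsLocalRing.mem_maximalIdeal]
      exact h0
    have h2 := congrArg (fun q => q.coeff F.natDegree) hresf
    simp only [coeff_map] at h2
    rw [h1, ← hdeg] at h2
    have h4 := (IsLocalRing.residue_eq_zero_iff _).1 h2.symm
    rw [IsLocalRing.mem_maximalIdeal] at h4
    exact h4 hlc
  have hdfA : fA.natDegree = F.natDegree := by
    refine le_antisymm hdle (le_natDegree_of_ne_zero ?_)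
    intro h0
    rw [h0] at hcoefu
    exact not_isUnit_zero hcoefu
  have hlcA : IsUnit fA.leadingCoeff := by
    rw [leadingCoeff, hdfA]
    exact hcoefu
  have hdf : (F.map (evalRingHom (a / b))).natDegree = F.natDegree := by
    rw [← natDegree_map_eq_of_injective ψk.injective (F.map (evalRingHom (a / b))), ← hfE,
      natDegree_map_eq_of_injective hAinj, hdfA]
  refine ⟨hdf, fun hℓ hdvd hℓe K' _ _ _ hK' => ?_⟩
  have hfact : Fact ℓ.Prime := ⟨hℓp⟩
  have hℓ1 : ¬ (ℓ : ℤ) ∣ (-(e : ℤ)) := by
    rw [dvd_neg, Int.natCast_dvd_natCast]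
    exact hℓe
  exact fineP_ext hFUN V ψk hℓ p hp hcard _ fA hfE hlcA (by rw [hresf]; exact hs) (by rwa [hdf])
    (by rwa [hdf]) (by rw [hresf]; exact hcop) _ (-(e : ℤ)) hℓ1 hVg K' hK'

end Pool.Agent.V11235.SE
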