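import Pool.Agent.V11235.SD.Main
import Pool.Agent.V11235.SE.Prim
import Pool.Agent.V11235.SE.Red
import Pool.Agent.V11235.SE.Loc

/-! Families over number fields and all extensions of degree prime to `ℓ`. -/

set_option autoImplicit false

namespace Pool.Agent.V11235.SE

open IsDedekindDomain NumberField WithZero Polynomial Pool.Agent.Y157.PS Pool.Agent.Y141.PS
open Pool.Agent.W858.SF Pool.Agent.W858.SG Pool.Agent.V11235.SD

theorem card_residue {L : Type} [Field L] [NumberField L] (v : HeightOneSpectrum (𝓞 L)) :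
    Nat.card (IsLocalRing.ResidueField (vv v).valuationSubring) = Ideal.absNorm v.asIdeal := by
  have hmax : v.asIdeal.IsMaximal := v.isMaximal
  let _ := Ideal.Quotient.field v.asIdeal
  obtain ⟨θ, hθ, -⟩ := exists_residue_map v
  have h1 := Nat.card_congr (Equiv.ofBijective θ ⟨θ.injective, hθ⟩)
  rw [← h1, Ideal.absNorm_apply, Submodule.cardQuot_apply]

theorem AE_sub {L : Type} [Field L] [NumberField L] (R' : Subalgebra ℤ L) (h : R'.FG) :
    AE fun v : HeightOneSpectrum (𝓞 L) => ∀ r : R', v.valuation L (r : L) ≤ 1 := by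
  classical
  obtain ⟨G, hG⟩ := h
  refine (AE.ball G fun x _ => AE.int x).mono ?_
  intro v hv r
  have hr : (r : L) ∈ Algebra.adjoin ℤ (G : Set L) := by
    rw [hG]
    exact r.2
  have key : ∀ x ∈ Algebra.adjoin ℤ (G : Set L), v.valuation L x ≤ 1 := by
    intro x hx
    induction hx using Algebra.adjoin_induction with
    | mem x hx => exact hv x hx
    | algebraMap n =>
      have h1 : algebraMap ℤ L n = algebraMap (𝓞 L) L (n : 𝓞 L) := by
        rw [map_intCast, eq_intCast]
      rw [h1]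
      exact v.valuation_le_one _
    | add x y _ _ hx hy => exact (Valuation.map_add _ _ _).trans (max_le hx hy)
    | mul x y _ _ hx hy =>
      rw [map_mul]
      exact mul_le_one' hx hy
  exact key _ hr

theorem core_ell {K L' : Type} [Field K] [NumberField K] [Field L'] [Algebra K L']
    [FiniteDimensional K L'] (ℓ : ℕ) (hℓ : ℓ.Prime) (g : K[X]) (F : K[X][X])
    (h3 : 3 ≤ F.natDegree) (θ : L') (hg : g ≠ 0)
    (hlc : F.leadingCoeff.eval₂ (algebraMap K L') θ ≠ 0)
    (hsep : (F.map (eval₂RingHom (algebraMap K L') θ)).Separable)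
    (hσ : ∃ σ : AlgebraicClosure L' ≃ₐ[L'] AlgebraicClosure L', ∀ n : ℕ, ¬ ℓ ∣ n →
      ∀ x : AlgebraicClosure L',
        aeval x (F.map (eval₂RingHom (algebraMap K L') θ)) = 0 → (σ ^ n) x ≠ x)
    (hdvd : ℓ ∣ F.natDegree) (hℓe : ¬ ℓ ∣ (g.map (algebraMap K L')).rootMultiplicity θ) :
    ∃ S : Set ℕ, (∀ p ∈ S, p.Prime) ∧ Pool.Agent.V11235.SC.Div S ∧ ∀ p ∈ S,
      ∃ (χ : 𝓞 K →+* ZMod (p ^ 2)) (Θ : ZMod (p ^ 2)), ∀ a b : 𝓞 K, Good p Θ (χ a) (χ b) →
          (F.map (evalRingHom (algebraMap (𝓞 K) K a / algebraMap (𝓞 K) K b))).natDegree =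
            F.natDegree ∧
          ∀ (K' : Type) [Field K'] [Algebra K K'] [FiniteDimensional K K'],
            ¬ ℓ ∣ Module.finrank K K' →
            FineP ℓ (algebraMap K K'
              (g.eval (algebraMap (𝓞 K) K a / algebraMap (𝓞 K) K b)))
              ((F.map (evalRingHom (algebraMap (𝓞 K) K a / algebraMap (𝓞 K) K b))).map
                (algebraMap K K')) := by
  classical
  have hFUN : S_FUN := Pool.Agent.Y674.PS.funct Pool.Agent.Y157.PS.a_inrt
  have hczL' : CharZero L' := charZero_of_injective_algebraMap (algebraMap K L').injective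
  have hNF : NumberField L' := NumberField.of_module_finite K L'
  have hOK : Algebra.FiniteType ℤ (𝓞 K) := inferInstance
  -- the other factor of `g`
  have hgL0 : g.map (algebraMap K L') ≠ 0 := (Polynomial.map_ne_zero_iff
    (algebraMap K L').injective).2 hg
  obtain ⟨q, hq, hqθ⟩ := exists_eq_pow_rootMultiplicity_mul_and_not_dvd _ hgL0 θ
  set e := (g.map (algebraMap K L')).rootMultiplicity θ with he
  rw [dvd_iff_isRoot, IsRoot.def] at hqθ
  -- the ring `R'`
  obtain ⟨R', hS, hRR', hfg, hfrac⟩ := exists_ring (R := 𝓞 K) (k := K) (L' := L')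
    (insert θ ((q.support.image fun i => q.coeff i) ∪
      (F.support.biUnion fun i => (F.coeff i).support.image fun j =>
        algebraMap K L' ((F.coeff i).coeff j))))
  have hinj' : Function.Injective (algebraMap R' L') := Subtype.val_injective
  have hθR : θ ∈ R' := hS (by simp)
  have hgR : ∀ j, q.coeff j ∈ R' := by
    intro j
    by_cases hj : q.coeff j = 0
    · rw [hj]
      exact zero_mem _
    · apply hS
      simp only [Finset.coe_insert, Set.mem_insert_iff, Finset.mem_coe, Finset.mem_union,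
        Finset.mem_image, mem_support_iff]
      right; left
      exact ⟨j, hj, rfl⟩
  have hFR : ∀ i j, algebraMap K L' ((F.coeff i).coeff j) ∈ R' := by
    intro i j
    by_cases hj : (F.coeff i).coeff j = 0
    · rw [hj, map_zero]
      exact zero_mem _
    · have hi : F.coeff i ≠ 0 := by
        intro h0
        rw [h0, coeff_zero] at hj
        exact hj rfl
      apply hS
      simp only [Finset.coe_insert, Set.mem_insert_iff, Finset.mem_coe, Finset.mem_union,
        Finset.mem_biUnion, Finset.mem_image, mem_support_iff]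
      right; right
      exact ⟨i, hi, j, hj, rfl⟩
  let θ' : R' := ⟨θ, hθR⟩
  let ι : 𝓞 K →+* R' :=
    { toFun := fun r => ⟨algebraMap K L' (algebraMap (𝓞 K) K r), hRR' r⟩
      map_one' := Subtype.ext (by simp)
      map_mul' := fun y z => Subtype.ext (by simp)
      map_zero' := Subtype.ext (by simp)
      map_add' := fun y z => Subtype.ext (by simp) }
  have hι : ∀ r, algebraMap R' L' (ι r) = algebraMap K L' (algebraMap (𝓞 K) K r) := fun _ => rfl
  obtain ⟨g', hg1⟩ := exists_lift (algebraMap R' L') q (fun j => ⟨⟨_, hgR j⟩, rfl⟩)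
  obtain ⟨F', hF1⟩ := exists_lift (mapRingHom (algebraMap R' L'))
    (F.map (mapRingHom (algebraMap K L'))) (fun i => by
      rw [coeff_map]
      obtain ⟨q, hq⟩ := exists_lift (algebraMap R' L') ((F.coeff i).map (algebraMap K L'))
        (fun j => by
          rw [coeff_map]
          exact ⟨⟨_, hFR i j⟩, rfl⟩)
      exact ⟨q, hq⟩)
  set dθ : R' := g'.eval θ' with hdθ
  have hdθ0 : algebraMap R' L' dθ ≠ 0 := by
    intro h0
    apply hqθ
    have h1 : algebraMap R' L' (g'.eval θ') = (g'.map (algebraMap R' L')).eval θ := by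
      rw [← eval_map_apply]
      rfl
    rw [← hg1, ← h1, ← hdθ, h0]
  -- the polynomial `F (θ, x)`
  set F1 := F'.map (evalRingHom θ') with hF1def
  have hF1L : F1.map (algebraMap R' L') = F.map (eval₂RingHom (algebraMap K L') θ) := by
    have h1 : (algebraMap R' L').comp (evalRingHom θ') =
        (evalRingHom θ).comp (mapRingHom (algebraMap R' L')) := by
      apply Polynomial.ringHom_ext
      · intro r
        simp
      · simp only [RingHom.comp_apply, coe_mapRingHom, map_X, coe_evalRingHom, eval_X]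
        rfl
    have h2 : (evalRingHom θ).comp (mapRingHom (algebraMap K L')) =
        eval₂RingHom (algebraMap K L') θ := by
      apply Polynomial.ringHom_ext
      · intro r
        simp
      · simp
    rw [hF1def, Polynomial.map_map, h1, ← Polynomial.map_map, hF1, Polynomial.map_map, h2]
  have hdF1 : F1.natDegree = F.natDegree := by
    rw [← natDegree_map_eq_of_injective hinj' F1, hF1L]
    exact natDegree_map_of_leadingCoeff_ne_zero _ hlc
  obtain ⟨N, hN0, hN⟩ := ((AE_sub R' hfg).and (AE.unit (algebraMap R' L' dθ) hdθ0)).and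
    (AE_unram L')
  -- the polynomial over the integers of `L'`
  obtain ⟨c, hc, hcf⟩ := IsLocalization.integerNormalization_spec (nonZeroDivisors (𝓞 L'))
    (F1.map (algebraMap R' L'))
  set h := IsLocalization.integerNormalization (nonZeroDivisors (𝓞 L'))
    (F1.map (algebraMap R' L')) with hh
  have hc0 : c ≠ 0 := nonZeroDivisors.ne_zero hc
  have hinj : Function.Injective (algebraMap (𝓞 L') L') := IsFractionRing.injective (𝓞 L') L'
  have hcK : algebraMap (𝓞 L') L' c ≠ 0 := by
    rw [Ne, map_eq_zero_iff _ hinj]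
    exact hc0
  have hgf : h.map (algebraMap (𝓞 L') L') = C (algebraMap (𝓞 L') L' c) *
      F1.map (algebraMap R' L') := by
    rw [hcf]
    ext i
    rw [coeff_smul, coeff_C_mul, Algebra.smul_def]
  have hdeg : h.natDegree = F1.natDegree := by
    rw [← natDegree_map_eq_of_injective hinj h, hgf, natDegree_C_mul hcK,
      natDegree_map_eq_of_injective hinj']
  have hgs : (h.map (algebraMap (𝓞 L') L')).Separable := by
    rw [hgf, hF1L]
    exact Separable.unit_mul (isUnit_C.2 hcK.isUnit) hsep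
  have hgσ : ∃ σ : AlgebraicClosure L' ≃ₐ[L'] AlgebraicClosure L', ∀ n : ℕ, ¬ ℓ ∣ n →
      ∀ θ : AlgebraicClosure L', aeval θ (h.map (algebraMap (𝓞 L') L')) = 0 → (σ ^ n) θ ≠ θ := by
    obtain ⟨σ, hσ⟩ := hσ
    refine ⟨σ, fun n hn θ hθ => hσ n hn θ ?_⟩
    rw [hgf, hF1L, map_mul, aeval_C] at hθ
    exact (mul_eq_zero.1 hθ).resolve_left ((_root_.map_ne_zero _).2 hcK)
  have hdL : (F.natDegree : 𝓞 L') ≠ 0 := by
    rw [Nat.cast_ne_zero]
    omega
  obtain ⟨S, hSp, hSd, hSv⟩ := prim_ell L' ℓ h (N * (F.natDegree : 𝓞 L'))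
    (mul_ne_zero hN0 hdL) hgs hgσ
  refine ⟨S, hSp, hSd, fun p hpS => ?_⟩
  have hpp := hSp p hpS
  obtain ⟨v, hvP, hvn⟩ := hSv p hpS
  have hNv : N ∉ v.asIdeal := fun h0 => hvP.1 (Ideal.mul_mem_right _ _ h0)
  have hdv : (F.natDegree : 𝓞 L') ∉ v.asIdeal := fun h0 => hvP.1 (Ideal.mul_mem_left _ _ h0)
  obtain ⟨⟨hPint, hunit⟩, hur⟩ := hN v hNv
  have hPint' : ∀ r : R', v.valuation L' (algebraMap R' L' r) ≤ 1 := hPint
  have hur := hur p hpp
  obtain ⟨χ, hχ⟩ := exists_chi v p hpp hvn hur (algebraMap R' L') hPint'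
  refine ⟨χ.comp ι, χ θ', fun a b hgood => ?_⟩
  obtain ⟨hVb, hVab⟩ := good_val v p hpp hvn hur (algebraMap R' L') χ hχ θ' (ι a) (ι b) hgood
  obtain ⟨-, hlcv, hsv, hrv⟩ := hvP
  have hψ : ∀ r : R', vv v (algebraMap L' (v.adicCompletion L') (algebraMap R' L' r) -
      algebraMap L' (v.adicCompletion L') (algebraMap R' L' r)) ≤ exp (-2) := by
    intro r
    rw [sub_self, map_zero]
    exact zero_le
  rw [hvn] at hrv
  obtain ⟨gB, hgB, hgBd, hgBu, hgBs, hgBr⟩ := red_ell ℓ p v hinj' (algebraMap R' L')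
    (algebraMap L' (v.adicCompletion L')) hPint' hψ F1 c h hgf hdeg hlcv hsv hrv
  have hfinres := finite_residue v
  have hexp0 : (1 : ℤᵐ⁰) = exp 0 := exp_zero.symm
  obtain ⟨hres1, hres2⟩ := loc_ell hFUN ℓ p hℓ hpp (L' := L') hinj' (vv v)
    (algebraMap L' (v.adicCompletion L')) F g F' g' e θ' hF1
    (by rw [hg1]; exact hq) (by
      rw [vv_algebraMap]
      exact hunit) (by
      intro r
      rw [vv_algebraMap]
      exact hPint' r) gB hgB hgBu
    (by rw [hgBd, hdF1]) hgBs (by rw [card_residue, hvn]) hgBr h3 _ _ (ι a) (ι b) (hι a) (hι b) (by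
      rw [vv_algebraMap]
      exact hVb) (by
      rw [vv_algebraMap]
      exact hVab)
  refine ⟨hres1, hres2 ?_ hdvd hℓe⟩
  have h5 : (ℓ : v.adicCompletion L') =
      algebraMap L' (v.adicCompletion L') (algebraMap (𝓞 L') L' ℓ) := by
    rw [map_natCast, map_natCast]
  rw [h5, vv_algebraMap]
  refine (HeightOneSpectrum.valuation_eq_one_iff_notMem v).2 fun h0 => hdv ?_
  obtain ⟨n, hn⟩ := hdvd
  rw [hn, Nat.cast_mul]
  exact Ideal.mul_mem_right _ _ h0

end Pool.Agent.V11235.SE
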