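import Pool.Agent.V11235.SE.Dvr
import Pool.Agent.Y141.PS.FG

/-! The local theorem over all extensions of degree prime to `ℓ`. -/

set_option autoImplicit false

namespace Pool.Agent.V11235.SE

open IsDedekindDomain NumberField WithZero Polynomial Pool.Agent.Y157.PS Pool.Agent.Y141.PS

theorem fineP_ext (hFUN : S_FUN) {ℓ : ℕ} [Fact ℓ.Prime] {k E : Type} [Field k] [CharZero k]
    [Field E] (V : Valuation E ℤᵐ⁰) [Finite (IsLocalRing.ResidueField V.valuationSubring)]
    (ψ : k →+* E) (h2 : V (ℓ : E) = 1) (p : ℕ) (hp : p.Prime)
    (hcard : Nat.card (IsLocalRing.ResidueField V.valuationSubring) = p)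
    (g : k[X]) (gB : V.valuationSubring[X])
    (hg : gB.map (algebraMap V.valuationSubring E) = g.map ψ) (hlc : IsUnit gB.leadingCoeff)
    (hs : (gB.map (IsLocalRing.residue V.valuationSubring)).Separable) (hdvd : ℓ ∣ g.natDegree)
    (h3 : 3 ≤ g.natDegree)
    (hcop : ∀ n : ℕ, ¬ ℓ ∣ n → IsCoprime (X ^ (p ^ n) - X)
      (gB.map (IsLocalRing.residue V.valuationSubring)))
    (a : k) (m : ℤ) (hm : ¬ (ℓ : ℤ) ∣ m) (ha : V (ψ a) = exp m)
    (K' : Type) [Field K'] [Algebra k K'] [FiniteDimensional k K']
    (hK' : ¬ ℓ ∣ Module.finrank k K') :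
    FineP ℓ (algebraMap k K' a) (g.map (algebraMap k K')) := by
  classical
  obtain ⟨hdvr, ϖ, t, n, hϖ, ht, hn, hat⟩ := exists_unif_prime (V.comap ψ) a ℓ m hm ha
  let i : (V.comap ψ).valuationSubring →+* V.valuationSubring :=
    { toFun := fun y => ⟨ψ y, y.2⟩
      map_one' := Subtype.ext (map_one ψ)
      map_mul' := fun y z => Subtype.ext (map_mul ψ _ _)
      map_zero' := Subtype.ext (map_zero ψ)
      map_add' := fun y z => Subtype.ext (map_add ψ _ _) }
  have hcoe : ∀ y, ((i y : V.valuationSubring) : E) = ψ (y : k) := fun _ => rfl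
  have hinj : Function.Injective i := by
    intro y z hyz
    apply Subtype.ext
    apply ψ.injective
    have := congrArg Subtype.val hyz
    exact this
  have hloc : IsLocalHom i := by
    refine ⟨fun y hy => ?_⟩
    have h1 := (Valuation.Integers.isUnit_iff_valuation_eq_one
      (Valuation.valuationSubring.integers V)).1 hy
    exact (Valuation.Integers.isUnit_iff_valuation_eq_one
      (Valuation.valuationSubring.integers (V.comap ψ))).2 h1
  have hri : Function.Injective (IsLocalRing.ResidueField.map i) :=
    (IsLocalRing.ResidueField.map i).injective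
  have hfin : Finite (IsLocalRing.ResidueField (V.comap ψ).valuationSubring) :=
    Finite.of_injective _ hri
  have hcard0 : Nat.card (IsLocalRing.ResidueField (V.comap ψ).valuationSubring) = p := by
    have h1 : Nat.card (IsLocalRing.ResidueField (V.comap ψ).valuationSubring) ∣ p := by
      rw [← hcard]
      exact AddSubgroup.card_dvd_of_injective
        (IsLocalRing.ResidueField.map i).toAddMonoidHom hri
    rcases (Nat.dvd_prime hp).1 h1 with h | h
    · have := Finite.one_lt_card (α := IsLocalRing.ResidueField (V.comap ψ).valuationSubring)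
      omega
    · exact h
  obtain ⟨f, hf⟩ : ∃ f : (V.comap ψ).valuationSubring[X],
      f.map (algebraMap (V.comap ψ).valuationSubring k) = g := by
    have h1 : g ∈ Polynomial.lifts (algebraMap (V.comap ψ).valuationSubring k) := by
      rw [Polynomial.lifts_iff_coeff_lifts]
      intro j
      have h5 : ψ (g.coeff j) = (gB.coeff j : E) := by
        have := congrArg (fun q => q.coeff j) hg
        simp only [coeff_map] at this
        exact this.symm
      exact ⟨⟨g.coeff j, by
        change V (ψ (g.coeff j)) ≤ 1
        rw [h5]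
        exact (gB.coeff j).2⟩, rfl⟩
    obtain ⟨f, hf⟩ := (Polynomial.mem_lifts _).1 h1
    exact ⟨f, hf⟩
  have hfB : f.map i = gB := by
    apply Polynomial.map_injective (algebraMap V.valuationSubring E) Subtype.val_injective
    rw [hg, ← hf, Polynomial.map_map, Polynomial.map_map]
    rfl
  have hdeg : f.natDegree = g.natDegree := by
    rw [← hf]
    exact (natDegree_map_eq_of_injective Subtype.val_injective f).symm
  have hlcf : IsUnit f.leadingCoeff := by
    have h1 : i f.leadingCoeff = gB.leadingCoeff := by
      rw [← hfB]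
      exact (leadingCoeff_map_of_injective hinj f).symm
    rw [← h1] at hlc
    exact hloc.map_nonunit _ hlc
  have hmapres : (f.map (IsLocalRing.residue (V.comap ψ).valuationSubring)).map
      (IsLocalRing.ResidueField.map i) = gB.map (IsLocalRing.residue V.valuationSubring) := by
    rw [Polynomial.map_map, IsLocalRing.ResidueField.map_comp_residue, ← Polynomial.map_map, hfB]
  have hsf : (f.map (IsLocalRing.residue (V.comap ψ).valuationSubring)).Separable := by
    rw [← Polynomial.separable_map (IsLocalRing.ResidueField.map i), hmapres]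
    exact hs
  have hcopf : ∀ n : ℕ, ¬ ℓ ∣ n → IsCoprime
      (X ^ (Nat.card (IsLocalRing.ResidueField (V.comap ψ).valuationSubring) ^ n) - X)
      (f.map (IsLocalRing.residue (V.comap ψ).valuationSubring)) := by
    intro n hn
    rw [hcard0, ← Polynomial.isCoprime_map (IsLocalRing.ResidueField.map i), hmapres,
      Polynomial.map_sub, Polynomial.map_pow, map_X]
    exact hcop n hn
  have h2A : IsUnit (ℓ : (V.comap ψ).valuationSubring) := by
    refine (Valuation.Integers.isUnit_iff_valuation_eq_one
      (Valuation.valuationSubring.integers (V.comap ψ))).2 ?_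
    change V (ψ (((ℓ : (V.comap ψ).valuationSubring)) : k)) = 1
    rw [← h2]
    congr 1
    rw [SubringClass.coe_natCast, map_natCast]
  have hak : a = algebraMap (V.comap ψ).valuationSubring k t *
      algebraMap (V.comap ψ).valuationSubring k ϖ ^ n := hat
  let _ : Algebra (V.comap ψ).valuationSubring K' :=
    ((algebraMap k K').comp (algebraMap (V.comap ψ).valuationSubring k)).toAlgebra
  have hst : IsScalarTower (V.comap ψ).valuationSubring k K' :=
    IsScalarTower.of_algebraMap_eq fun _ => rfl
  have hcz : CharZero K' := charZero_of_injective_algebraMap (algebraMap k K').injective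
  obtain ⟨A, _, _, _, _, _, _, j, hj, hjlc, hjs, hjr, ϖ', t', m', hϖ', ht', hm', hd'⟩ :=
    dvr_ext (k := k) (L := K') ℓ Fact.out hK' f hlcf hsf hcopf ϖ t hϖ ht n hn
  have hdeg' : (f.map j).natDegree = g.natDegree := by
    rw [← hdeg]
    have h1 : Function.Injective j := by
      have h2 : Function.Injective ((algebraMap A K').comp j) := by
        rw [hj]
        exact (algebraMap k K').injective.comp Subtype.val_injective
      exact Function.Injective.of_comp h2
    exact natDegree_map_eq_of_injective h1 f
  have hfK : (f.map j).map (algebraMap A K') = g.map (algebraMap k K') := by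
    rw [Polynomial.map_map, hj, ← hf, Polynomial.map_map]
    rfl
  rw [← hfK]
  refine fineP hFUN ?_ (f.map j) hjlc hjs (by rwa [hdeg']) (by rwa [hdeg']) hjr ϖ' hϖ' _ m' hm'
    t' ht' ?_
  · have h5 := h2A.map j
    rwa [map_natCast] at h5
  · rw [← hd', hak, map_mul, map_zpow₀]
    rfl

end Pool.Agent.V11235.SE
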