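import Pool.Agent.V11235.SE.Core

/-! Families over number fields and all extensions of degree prime to `ℓ`: density. -/

set_option autoImplicit false

namespace Pool.Agent.V11235.SE

open IsDedekindDomain NumberField WithZero Polynomial Pool.Agent.Y157.PS Pool.Agent.Y141.PS
open Pool.Agent.W858.SF Pool.Agent.W858.SG Pool.Agent.V11235.SD

/-- the good property of a pair -/
def GoodPair {K : Type} [Field K] (ℓ : ℕ) (R : Type) [CommRing R] [Algebra R K] (g : K[X])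
    (F : K[X][X]) (x : R × R) : Prop :=
  (F.map (evalRingHom (algebraMap R K x.1 / algebraMap R K x.2))).natDegree = F.natDegree ∧
    ∀ (K' : Type) [Field K'] [Algebra K K'] [FiniteDimensional K K'],
      ¬ ℓ ∣ Module.finrank K K' →
      FineP ℓ (algebraMap K K' (g.eval (algebraMap R K x.1 / algebraMap R K x.2)))
        ((F.map (evalRingHom (algebraMap R K x.1 / algebraMap R K x.2))).map (algebraMap K K'))

theorem density_ell {K L' : Type} [Field K] [NumberField K] [Field L'] [Algebra K L']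
    [FiniteDimensional K L'] (ℓ : ℕ) (hℓ : ℓ.Prime) (g : K[X]) (F : K[X][X])
    (h3 : 3 ≤ F.natDegree) (θ : L') (hg : g ≠ 0)
    (hlc : F.leadingCoeff.eval₂ (algebraMap K L') θ ≠ 0)
    (hsep : (F.map (eval₂RingHom (algebraMap K L') θ)).Separable)
    (hσ : ∃ σ : AlgebraicClosure L' ≃ₐ[L'] AlgebraicClosure L', ∀ n : ℕ, ¬ ℓ ∣ n →
      ∀ x : AlgebraicClosure L',
        aeval x (F.map (eval₂RingHom (algebraMap K L') θ)) = 0 → (σ ^ n) x ≠ x)
    (hdvd : ℓ ∣ F.natDegree) (hℓe : ¬ ℓ ∣ (g.map (algebraMap K L')).rootMultiplicity θ)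
    (ε : ℝ) (hε : 0 < ε) :
    ∃ I : Ideal (𝓞 K), Finite (𝓞 K ⧸ I) ∧
      (Set.ncard ((fun x : 𝓞 K × 𝓞 K => (Ideal.Quotient.mk I x.1, Ideal.Quotient.mk I x.2)) ''
        {x | ¬ GoodPair ℓ (𝓞 K) g F x}) : ℝ) ≤ ε * (Nat.card (𝓞 K ⧸ I) : ℝ) ^ 2 := by
  classical
  obtain ⟨S, hSp, hSd, hSv⟩ := core_ell ℓ hℓ g F h3 θ hg hlc hsep hσ hdvd hℓe
  obtain ⟨T, hTS, hTε⟩ := small_prod S hSp hSd ε hε
  have hv : ∀ p : T, ∃ (χ : 𝓞 K →+* ZMod (p.1 ^ 2)) (Θ : ZMod (p.1 ^ 2)), ∀ a b : 𝓞 K,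
      Good p.1 Θ (χ a) (χ b) → GoodPair ℓ (𝓞 K) g F (a, b) := fun p => hSv p.1 (hTS p.1 p.2)
  choose χ Θ hχ using hv
  have hTp : ∀ p ∈ T, p.Prime := fun p hp => hSp p (hTS p hp)
  obtain ⟨I, hI, hIE⟩ := count_pairs T hTp χ Θ {x : 𝓞 K × 𝓞 K | ¬ GoodPair ℓ (𝓞 K) g F x} (by
    rintro ⟨a, b⟩ hbad p hgood
    exact hbad (hχ p a b hgood))
  refine ⟨I, hI, hIE.trans ?_⟩
  exact mul_le_mul_of_nonneg_right hTε.le (by positivity)

end Pool.Agent.V11235.SE
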